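import Pool.Agent.W21.RK.SVproof

/-! Upper bound for the number of rough values of linear forms. -/

set_option autoImplicit false

namespace Pool.Agent.W5h28.CP

open Finset Filter Topology
open Pool.Agent.W262.RK

theorem PP_pos (z y : ℕ) : 0 < PP z y := prod_pos fun p hp => (mem_filter.1 hp).2.pos

theorem gcd_PP {x : ℤ} {z y : ℕ} (h : ∀ p : ℕ, p.Prime → p ≤ y → ¬ (p : ℤ) ∣ x) : Int.gcd x (PP z y) = 1 := by
  by_contra hne
  obtain ⟨p, hp, hd⟩ := Nat.exists_prime_and_dvd hne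
  have h1 : (p : ℤ) ∣ x := (Int.natCast_dvd_natCast.2 hd).trans (Int.gcd_dvd_left _ _)
  have h2 : p ∣ PP z y := by
    have : (p : ℤ) ∣ ((PP z y : ℕ) : ℤ) := (Int.natCast_dvd_natCast.2 hd).trans (Int.gcd_dvd_right _ _)
    exact_mod_cast this
  unfold PP at h2
  obtain ⟨q, hq, hpq⟩ := (hp.prime.dvd_finset_prod_iff _).1 h2
  obtain ⟨hq1, hq2⟩ := mem_filter.1 hq
  rw [(Nat.prime_dvd_prime_iff_eq hp hq2).1 hpq] at h1
  exact h q hq2 (mem_Ioc.1 hq1).2 h1

/-- the number of `t ≤ N` with rough values -/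
theorem rough_ub (J : Type) [Fintype J] [DecidableEq J] (α β : J → ℤ) (hα : ∀ j, α j ≠ 0)
    (hne : ∀ j l, j ≠ l → α j * β l ≠ α l * β j) (δ : ℝ) (hδ : 0 < δ) :
    ∃ C : ℝ, 0 < C ∧ ∀ᶠ N : ℕ in atTop, ∀ S : Finset ℕ, S ⊆ Icc 1 N →
      (∀ t ∈ S, ∀ j, ∀ p : ℕ, p.Prime → Real.log p ≤ δ * Real.log N → ¬ (p : ℤ) ∣ α j * t + β j) →
      (S.card : ℝ) ≤ C * (N / Real.log N ^ Fintype.card J) := by
  classical
  obtain ⟨z0, H⟩ := Pool.Agent.W21.RK.sv J α β hα hne
  obtain ⟨C, K, y0, hK, H⟩ := H z0 le_rfl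
  obtain ⟨θ, hθ⟩ : ∃ θ : ℝ, θ = min δ (1 / K) := ⟨_, rfl⟩
  have hK0 : (0 : ℝ) < K := by exact_mod_cast hK
  have hθ0 : 0 < θ := by rw [hθ]; exact lt_min hδ (by positivity)
  have hθδ : θ ≤ δ := by rw [hθ]; exact min_le_left _ _
  have hθK : θ * K ≤ 1 := by
    have : θ ≤ 1 / K := by rw [hθ]; exact min_le_right _ _
    calc θ * K ≤ 1 / K * K := mul_le_mul_of_nonneg_right this hK0.le
      _ = 1 := by field_simp
  refine ⟨(|C| + 1) * (2 / θ) ^ Fintype.card J, by positivity, ?_⟩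
  have t1 : Tendsto (fun N : ℕ => (N : ℝ) ^ (θ / 2)) atTop atTop :=
    (tendsto_rpow_atTop (by positivity)).comp tendsto_natCast_atTop_atTop
  filter_upwards [t1.eventually_ge_atTop (max 2 ((y0 : ℝ) + z0 + 1)), eventually_ge_atTop 3] with N hN hN3
  intro S hS hrough
  have hN0 : (0 : ℝ) < N := by exact_mod_cast (by omega : 0 < N)
  have hN1 : (1 : ℝ) ≤ N := by exact_mod_cast (by omega : 1 ≤ N)
  have hlog : 0 < Real.log N := Real.log_pos (by exact_mod_cast (by omega : 1 < N))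
  obtain ⟨u, hu⟩ : ∃ u : ℝ, u = (N : ℝ) ^ (θ / 2) := ⟨_, rfl⟩
  rw [← hu] at hN
  have hu2 : 2 ≤ u := (le_max_left _ _).trans hN
  have huy : (y0 : ℝ) + z0 + 1 ≤ u := (le_max_right _ _).trans hN
  have e : (N : ℝ) ^ θ = u * u := by rw [hu, ← Real.rpow_add hN0]; congr 1; ring
  obtain ⟨y, hy⟩ : ∃ y : ℕ, y = ⌊(N : ℝ) ^ θ⌋₊ := ⟨_, rfl⟩
  have huu : u ≤ (y : ℝ) := by
    have := Nat.lt_floor_add_one ((N : ℝ) ^ θ)
    rw [← hy] at this
    rw [e] at this
    nlinarith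
  have hyle : (y : ℝ) ≤ (N : ℝ) ^ θ := by rw [hy]; exact Nat.floor_le (by positivity)
  have hy0 : (0 : ℝ) < y := by linarith
  have hyy0 : y0 ≤ y := by
    have : (y0 : ℝ) ≤ y := by
      have : (0 : ℝ) ≤ z0 := Nat.cast_nonneg _
      linarith
    exact_mod_cast this
  have hyz0 : z0 < y := by
    have : (z0 : ℝ) < y := by
      have : (0 : ℝ) ≤ y0 := Nat.cast_nonneg _
      linarith
    exact_mod_cast this
  have hyK : y ^ K ≤ N := by
    have h1 : (y : ℝ) ^ K ≤ N := by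
      calc (y : ℝ) ^ K ≤ ((N : ℝ) ^ θ) ^ K := pow_le_pow_left₀ hy0.le hyle K
        _ = (N : ℝ) ^ (θ * K) := by rw [← Real.rpow_natCast, ← Real.rpow_mul hN0.le]
        _ ≤ (N : ℝ) ^ (1 : ℝ) := Real.rpow_le_rpow_of_exponent_le hN1 hθK
        _ = N := Real.rpow_one _
    exact_mod_cast h1
  have hlogy : θ / 2 * Real.log N ≤ Real.log y := by
    calc θ / 2 * Real.log N = Real.log u := by rw [hu, Real.log_rpow hN0]
      _ ≤ Real.log y := Real.log_le_log (by linarith) huu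
  have h1 := H N y hyy0 hyz0 hyK (fun _ => 1) (by
    unfold Tup
    rw [mem_filter, Fintype.mem_piFinset]
    refine ⟨fun _ => Nat.one_mem_divisors.2 (PP_pos _ _).ne', fun _ _ _ => Nat.coprime_one_left _⟩) (by
    simp
    omega)
  have h2 : (S.card : ℝ) ≤ (((Icc 1 N).filter
      (fun t : ℕ => ∀ j, Int.gcd (α j * t + β j) (PP z0 y) = (fun _ : J => 1) j)).card : ℝ) := by
    rw [Nat.cast_le]
    apply card_le_card
    intro t ht
    refine mem_filter.2 ⟨hS ht, fun j => ?_⟩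
    apply gcd_PP
    intro p hp hpy
    apply hrough t ht j p hp
    have hp0 : (0 : ℝ) < p := by exact_mod_cast hp.pos
    calc Real.log p ≤ Real.log ((N : ℝ) ^ θ) :=
          Real.log_le_log hp0 ((Nat.cast_le.2 hpy).trans hyle)
      _ = θ * Real.log N := Real.log_rpow hN0 _
      _ ≤ δ * Real.log N := mul_le_mul_of_nonneg_right hθδ hlog.le
  refine h2.trans (h1.trans ?_)
  have hg : ∏ j : J, gw 1 (Fintype.card J) ((fun _ : J => 1) j) = 1 := by
    apply prod_eq_one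
    intro j _
    simp [gw]
  rw [hg, mul_one]
  have hpw : (θ / 2 * Real.log N) ^ Fintype.card J ≤ Real.log y ^ Fintype.card J :=
    pow_le_pow_left₀ (by positivity) hlogy _
  calc C * N / Real.log y ^ Fintype.card J ≤ (|C| + 1) * N / Real.log y ^ Fintype.card J := by
        have : 0 < Real.log y := lt_of_lt_of_le (by positivity) hlogy
        have := le_abs_self C
        gcongr
        linarith
    _ ≤ (|C| + 1) * N / (θ / 2 * Real.log N) ^ Fintype.card J :=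
        div_le_div_of_nonneg_left (by positivity) (by positivity) hpw
    _ = (|C| + 1) * (2 / θ) ^ Fintype.card J * (N / Real.log N ^ Fintype.card J) := by
        rw [mul_pow, div_pow, div_pow]
        field_simp

end Pool.Agent.W5h28.CP
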