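import Pool.Agent.W5h28.CC.Base
import Pool.Agent.W5h28.CP.Ub
import Pool.Agent.Y827.RO.NarG

/-! Blocks of consecutive rough numbers of a prescribed pattern, which contain many primes, in narrow progressions. -/

set_option autoImplicit false

namespace Pool.Agent.W5h28.CP

open Finset Filter Topology
open Pool.Agent.Y827.GS
open Pool.Agent.Y827.RO
open Pool.Agent.W5h28.CC (transfer scale len_le)

/-- at most `R` prime factors, all larger than `y` -/
def AP (R : ℕ) (y : ℝ) (x : ℕ) : Prop := x.primeFactorsList.length ≤ R ∧ ∀ p : ℕ, p.Prime → p ∣ x → y < p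

/-- the numbers without prime factors `≤ y` between the smallest and the largest `n + h` are the `n + h`, they are
almost primes, and exactly those in `E` are primes -/
def Block {T K : ℕ} (h : Fin T → Fin K → ℕ) (E : Finset (Fin T × Fin K)) (R : ℕ) (y : ℝ) (n : ℕ) : Prop :=
  (∀ g i, AP R y (n + h g i) ∧ ((n + h g i).Prime ↔ (g, i) ∈ E)) ∧
  ∀ e : ℕ, (∃ g i, h g i ≤ e) → (∃ g i, e ≤ h g i) → (∀ p : ℕ, p.Prime → p ∣ n + e → y < p) → ∃ g i, e = h g i

section
variable {T K : ℕ} (h : Fin T → Fin K → ℕ) (m b : ℕ)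

/-- the linear forms -/
def HH (g : Fin T) (i : Fin K) : ℤ × ℤ := ((m : ℤ), ((b + h g i : ℕ) : ℤ))

theorem HH_val (g : Fin T) (i : Fin K) (t : ℕ) :
    (HH h m b g i).1 * (t : ℤ) + (HH h m b g i).2 = ((m * t + b + h g i : ℕ) : ℤ) := by
  unfold HH
  push_cast
  ring

/-- all forms together: `t - s`, `m t + b + e` and `m t + b + h` -/
def al : Option (Option (Fin T × Fin K)) → ℤ
  | none => 1
  | some _ => m

def be (s e : ℕ) : Option (Option (Fin T × Fin K)) → ℤ
  | none => -(s : ℤ)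
  | some none => ((b + e : ℕ) : ℤ)
  | some (some x) => ((b + h x.1 x.2 : ℕ) : ℤ)

theorem forms_ne (hm : 0 < m) (hinj : Function.Injective fun x : Fin T × Fin K => h x.1 x.2) (s e : ℕ)
    (hs : ∀ g i, (HH h m b g i).2 + (HH h m b g i).1 * s ≠ 0) (he1 : ∃ g i, h g i ≤ e) (he2 : ∀ g i, e ≠ h g i)
    (j l : Option (Option (Fin T × Fin K))) (hjl : j ≠ l) :
    al (T := T) (K := K) m j * be h b s e l ≠ al m l * be h b s e j := by
  have hm' : (0 : ℤ) < m := by exact_mod_cast hm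
  obtain ⟨g₀, i₀, hgi⟩ := he1
  have hs' : ∀ g i, (b : ℤ) + h g i + m * s ≠ 0 := by
    intro g i
    have := hs g i
    unfold HH at this
    simpa using this
  have he' : (b : ℤ) + e + m * s ≠ 0 := by
    intro h0
    have h1 : (0 : ℤ) ≤ m * s := by positivity
    have h2 : (h g₀ i₀ : ℤ) ≤ e := by exact_mod_cast hgi
    have h3 := hs' g₀ i₀
    have h4 : (0 : ℤ) ≤ b := by positivity
    have h5 : (0 : ℤ) ≤ h g₀ i₀ := by positivity
    omega
  rcases j with _ | _ | x <;> rcases l with _ | _ | y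
  · exact absurd rfl hjl
  · simp only [al, be]
    intro h0
    apply he'
    push_cast at h0
    linarith
  · simp only [al, be]
    intro h0
    apply hs' y.1 y.2
    push_cast at h0
    linarith
  · simp only [al, be]
    intro h0
    apply he'
    push_cast at h0
    linarith
  · exact absurd rfl hjl
  · simp only [al, be]
    intro h0
    have h1 := mul_left_cancel₀ hm'.ne' h0
    have h2 : b + h y.1 y.2 = b + e := by exact_mod_cast h1
    exact he2 y.1 y.2 (by omega)
  · simp only [al, be]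
    intro h0
    apply hs' x.1 x.2
    push_cast at h0
    linarith
  · simp only [al, be]
    intro h0
    have h1 := mul_left_cancel₀ hm'.ne' h0
    have h2 : b + e = b + h x.1 x.2 := by exact_mod_cast h1
    exact he2 x.1 x.2 (by omega)
  · simp only [al, be]
    intro h0
    have h1 := mul_left_cancel₀ hm'.ne' h0
    have h2 : b + h y.1 y.2 = b + h x.1 x.2 := by exact_mod_cast h1
    apply hjl
    rw [hinj (a₁ := x) (a₂ := y) (by simp only; omega)]

theorem loc (hadm : ∀ p : ℕ, p.Prime → p ≤ T * K → ∃ r : ℕ, ∀ g i, ¬ p ∣ r + h g i)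
    (hcop : ∀ g i, (b + h g i).Coprime m) (p : ℕ) (hp : p.Prime) (hpk : p ≤ T * K) :
    ∃ r : ℤ, ∀ g i, ¬ (p : ℤ) ∣ (HH h m b g i).1 * r + (HH h m b g i).2 := by
  by_cases hpm : p ∣ m
  · refine ⟨0, fun g i hd => ?_⟩
    unfold HH at hd
    rw [mul_zero, zero_add, Int.natCast_dvd_natCast] at hd
    have h1 := Nat.dvd_gcd hd hpm
    rw [Nat.Coprime.gcd_eq_one (hcop g i)] at h1
    exact hp.one_lt.ne' (Nat.dvd_one.1 h1)
  · obtain ⟨r, hr⟩ := hadm p hp hpk
    have hcm : IsCoprime (m : ℤ) (p : ℤ) := by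
      rw [Nat.isCoprime_iff_coprime]
      exact ((Nat.Prime.coprime_iff_not_dvd hp).2 hpm).symm
    obtain ⟨u, w, huw⟩ := hcm
    refine ⟨u * ((r : ℤ) - b), fun g i hd => hr g i ?_⟩
    rw [← Int.natCast_dvd_natCast]
    unfold HH at hd
    have e : ((r + h g i : ℕ) : ℤ) = (m : ℤ) * (u * ((r : ℤ) - b)) + ((b + h g i : ℕ) : ℤ) +
        p * (w * ((r : ℤ) - b)) := by
      push_cast
      linear_combination ((r : ℤ) - b) * (-huw)
    rw [e]
    exact dvd_add hd (Dvd.intro _ rfl)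

end

theorem gen (T M : ℕ) (hT : 1 ≤ T) (hTM : 18 * M < 5 * T) : ∃ (K R : ℕ) (δ : ℝ), 1 ≤ K ∧ 0 < δ ∧
    ∀ h : Fin T → Fin K → ℕ, (Function.Injective fun x : Fin T × Fin K => h x.1 x.2) →
    (∀ p : ℕ, p.Prime → p ≤ T * K → ∃ r : ℕ, ∀ g i, ¬ p ∣ r + h g i) →
    ∀ m b : ℕ, 0 < m → (∀ g i, (b + h g i).Coprime m) →
    ∃ κ : ℝ, 0 < κ ∧ ∀ L : ℕ, ∃ C : ℕ, ∀ᶠ N : ℕ in atTop, ∃ (E : Finset (Fin T × Fin K)) (d : ℕ),
      M < (E.image Prod.fst).card ∧ 1 ≤ d ∧ (d : ℝ) ≤ Real.log N ^ C ∧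
      (∃ S : Finset ℕ, S ⊆ Icc 1 N ∧ (∀ n ∈ S, n ≡ b [MOD m] ∧ Block h E R ((N : ℝ) ^ δ) n) ∧
        κ * (N / Real.log N ^ (T * K + 1)) ≤ S.card) ∧
      ∃ S : Finset ℕ, S ⊆ Icc 1 N ∧ (∀ n ∈ S, ∀ l < L, n + l * d ≤ N ∧ n + l * d ≡ b [MOD m] ∧
        Block h E R ((N : ℝ) ^ δ) (n + l * d)) ∧ (N : ℝ) / Real.log N ^ C ≤ S.card := by
  classical
  obtain ⟨K, hK, δ, hδ, H0⟩ := lamE0 T M hT (by
    have : ((18 * M : ℕ) : ℝ) < ((5 * T : ℕ) : ℝ) := by exact_mod_cast hTM
    push_cast at this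
    linarith)
  refine ⟨K, ⌈2 / (δ / 2)⌉₊, δ / 2, hK, by positivity, fun h hinj hadm m b hm hcop => ?_⟩
  set H : Fin T → Fin K → ℤ × ℤ := HH h m b with hH
  have hval : ∀ g i (t : ℕ), (H g i).1 * (t : ℤ) + (H g i).2 = ((m * t + b + h g i : ℕ) : ℤ) :=
    fun g i t => HH_val h m b g i t
  have hinj' : Function.Injective (fun x : Fin T × Fin K => H x.1 x.2) := by
    intro x y hxy
    have h2 : ((b + h x.1 x.2 : ℕ) : ℤ) = ((b + h y.1 y.2 : ℕ) : ℤ) := congrArg Prod.snd hxy
    have h2' : b + h x.1 x.2 = b + h y.1 y.2 := by exact_mod_cast h2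
    exact hinj (by simp only; omega)
  have hpos : ∀ g i, 0 < (H g i).1 ∧ IsCoprime (H g i).1 (H g i).2 := by
    intro g i
    refine ⟨?_, ?_⟩
    · show (0 : ℤ) < (m : ℤ)
      exact_mod_cast hm
    · show IsCoprime (m : ℤ) ((b + h g i : ℕ) : ℤ)
      rw [Nat.isCoprime_iff_coprime]
      exact (hcop g i).symm
  have hloc : ∀ p : ℕ, p.Prime → p ≤ T * K → ∃ r : ℤ, ∀ g i, ¬ (p : ℤ) ∣ (H g i).1 * r + (H g i).2 :=
    fun p hp hpk => loc h m b hadm hcop p hp hpk
  obtain ⟨A, hA⟩ := adf_ev (univ.image (fun x : Fin T × Fin K => H x.1 x.2)) (by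
    intro f hf
    obtain ⟨x, -, rfl⟩ := mem_image.1 hf
    exact hpos x.1 x.2)
  obtain ⟨s₀, κ, hκ, H1⟩ := H0 A
  have hmr : (0 : ℝ) < m := by exact_mod_cast hm
  -- the other places
  obtain ⟨B, hB⟩ : ∃ B : ℕ, ∀ g i, h g i ≤ B :=
    ⟨∑ x : Fin T × Fin K, h x.1 x.2, fun g i =>
      single_le_sum (f := fun x : Fin T × Fin K => h x.1 x.2) (fun _ _ => Nat.zero_le _) (mem_univ (g, i))⟩
  obtain ⟨Eb, hEb⟩ : ∃ Eb : Finset ℕ, Eb = (range (B + 1)).filter (fun e => (∃ g i, h g i ≤ e) ∧ ∀ g i, e ≠ h g i) :=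
    ⟨_, rfl⟩
  have hub : ∀ s e : ℕ, ∃ Cs : ℝ, 0 < Cs ∧ (Csh H s → e ∈ Eb → ∀ᶠ N : ℕ in atTop, ∀ S : Finset ℕ, S ⊆ Icc 1 N →
      (∀ t ∈ S, Rgh H δ s N t ∧ ∀ p : ℕ, p.Prime → Real.log p ≤ δ / 2 * Real.log N → ¬ p ∣ m * t + b + e) →
      (S.card : ℝ) ≤ Cs * (N / Real.log N ^ (T * K + 2))) := by
    intro s e
    by_cases hse : Csh H s ∧ e ∈ Eb
    · obtain ⟨hs, he⟩ := hse
      rw [hEb, mem_filter] at he
      obtain ⟨Cs, hCs, hev⟩ := rough_ub (Option (Option (Fin T × Fin K))) (al m) (be h b s e) (by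
        rintro (_ | _)
        · exact one_ne_zero
        · show (m : ℤ) ≠ 0
          exact_mod_cast hm.ne') (fun j l hjl => forms_ne h m b hm hinj s e hs.1 he.2.1 he.2.2 j l hjl) (δ / 2)
        (by positivity)
      refine ⟨Cs, hCs, fun _ _ => ?_⟩
      filter_upwards [hev, eventually_ge_atTop 1] with N hN hN1 S hS hr
      have hcard : Fintype.card (Option (Option (Fin T × Fin K))) = T * K + 2 := by
        rw [Fintype.card_option, Fintype.card_option, Fintype.card_prod, Fintype.card_fin, Fintype.card_fin]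
      rw [hcard] at hN
      apply hN S hS
      have hlogN : 0 ≤ Real.log N := Real.log_natCast_nonneg N
      rintro t ht (_ | _ | x) p hp hlp
      · have h1 := (hr t ht).1.1 p hp (hlp.trans (by nlinarith))
        intro hd
        apply h1
        have e1 : al (T := T) (K := K) m none * (t : ℤ) + be h b s e none = (t : ℤ) - s := by
          simp only [al, be]
          ring
        rwa [e1] at hd
      · have h1 := (hr t ht).2 p hp hlp
        intro hd
        apply h1
        have e1 : al (T := T) (K := K) m (some none) * (t : ℤ) + be h b s e (some none) =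
            ((m * t + b + e : ℕ) : ℤ) := by
          simp only [al, be]
          push_cast
          ring
        rw [e1] at hd
        exact_mod_cast hd
      · have h1 := (hr t ht).1.2 x.1 x.2 p hp (hlp.trans (by nlinarith))
        intro hd
        apply h1
        have e1 : al (T := T) (K := K) m (some (some x)) * (t : ℤ) + be h b s e (some (some x)) =
            (H x.1 x.2).1 * (t : ℤ) + (H x.1 x.2).2 := by
          simp only [al, be, hH, HH]
        rwa [e1] at hd
    · exact ⟨1, one_pos, fun h1 h2 => absurd ⟨h1, h2⟩ hse⟩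
  choose Cs hCs hub using hub
  obtain ⟨CC, hCC⟩ : ∃ CC : ℝ, CC = ∑ s ∈ range (s₀ + 1), ∑ e ∈ Eb, Cs s e := ⟨_, rfl⟩
  have hCC0 : 0 ≤ CC := by
    rw [hCC]
    exact sum_nonneg fun s _ => sum_nonneg fun e _ => (hCs s e).le
  have hCCs : ∀ s ≤ s₀, ∑ e ∈ Eb, Cs s e ≤ CC := by
    intro s hs
    rw [hCC]
    exact single_le_sum (f := fun s => ∑ e ∈ Eb, Cs s e) (fun s _ => sum_nonneg fun e _ => (hCs s e).le)
      (mem_range.2 (by omega))
  have hubev : ∀ᶠ N : ℕ in atTop, ∀ s ∈ range (s₀ + 1), ∀ e ∈ Eb, Csh H s → ∀ S : Finset ℕ, S ⊆ Icc 1 N →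
      (∀ t ∈ S, Rgh H δ s N t ∧ ∀ p : ℕ, p.Prime → Real.log p ≤ δ / 2 * Real.log N → ¬ p ∣ m * t + b + e) →
      (S.card : ℝ) ≤ Cs s e * (N / Real.log N ^ (T * K + 2)) := by
    rw [eventually_all_finset]
    intro s _
    rw [eventually_all_finset]
    intro e he
    by_cases hs : Csh H s
    · filter_upwards [hub s e hs he] with N hN _
      exact hN
    · exact Eventually.of_forall fun N h1 => absurd h1 hs
  have hlogev : ∀ᶠ N : ℕ in atTop, 2 * CC / κ + 1 ≤ Real.log N :=
    (Real.tendsto_log_atTop.comp tendsto_natCast_atTop_atTop).eventually_ge_atTop _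
  refine ⟨κ / 2 / (2 * m), by positivity, fun L => ?_⟩
  obtain ⟨C, hC⟩ := narGen H hinj' hpos δ (κ / 2) hδ (by positivity) s₀ (max L 2) (le_max_right _ _)
  refine ⟨C + 1, ?_⟩
  filter_upwards [transfer (H1.and (hA.and (hC.and (hubev.and hlogev)))) m b hm, scale m b hm,
    eventually_ge_atTop (B + 16)] with N hN hsc hNB
  obtain ⟨hN1, hAN, hCN, hubN, hlogN'⟩ := hN
  obtain ⟨hmN', hN'low, hN'N, hN'pos, hlogle, hlogge, hlogm⟩ := hsc
  set N' : ℕ := (N - b) / m with hN'
  have hN0 : (0 : ℝ) < N := by exact_mod_cast (by omega : 0 < N)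
  have hN2 : 2 ≤ N := by omega
  have hm1 : (1 : ℝ) ≤ m := by exact_mod_cast hm
  have hlog1 : 1 ≤ Real.log N := by linarith
  have hN'r : (0 : ℝ) < N' := by exact_mod_cast hN'pos
  have hlow' : (N : ℝ) ≤ 2 * m * N' := by exact_mod_cast hN'low
  have hlogp : 0 < Real.log N' := by linarith
  -- the exact set
  obtain ⟨s, E, hs, hs1, hs2, hE, hcard⟩ := hN1 H hinj'
    (fun g i => hAN _ (mem_image.2 ⟨(g, i), mem_univ _, rfl⟩)) hloc
  have hcsh : Csh H s := ⟨hs1, hs2⟩
  have hRe : ∀ t ∈ Re H δ s E N', (1 ≤ t ∧ t ≤ N') ∧ (N' : ℝ) / 16 ≤ t ∧ Rgh H δ s N' t ∧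
      ∀ g i, ((m * t + b + h g i).Prime ↔ (g, i) ∈ E) := by
    intro t ht
    unfold Re at ht
    obtain ⟨h4, h5, h6, h7, h8⟩ := mem_filter.1 ht
    rw [mem_Icc] at h4
    refine ⟨h4, h5, ⟨h6, h7⟩, fun g i => ?_⟩
    have h18 := h8 g i
    rw [hval g i t, Int.toNat_natCast] at h18
    exact h18
  -- the block is exact for most of them
  obtain ⟨G, hG⟩ : ∃ G : Finset ℕ, G = (Re H δ s E N').filter (fun t => ∀ e ∈ Eb,
      ¬ ∀ p : ℕ, p.Prime → Real.log p ≤ δ / 2 * Real.log N' → ¬ p ∣ m * t + b + e) := ⟨_, rfl⟩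
  have hGcard : κ / 2 * (N' / Real.log N' ^ (T * K + 1)) ≤ (G.card : ℝ) := by
    have h1 : ((Re H δ s E N').card : ℝ) ≤ G.card + ∑ e ∈ Eb, Cs s e * (N' / Real.log N' ^ (T * K + 2)) := by
      have h2 : (Re H δ s E N') ⊆ G ∪ Eb.biUnion (fun e => (Re H δ s E N').filter (fun t =>
          ∀ p : ℕ, p.Prime → Real.log p ≤ δ / 2 * Real.log N' → ¬ p ∣ m * t + b + e)) := by
        intro t ht
        rw [mem_union, mem_biUnion]
        by_cases hbad : ∃ e ∈ Eb, ∀ p : ℕ, p.Prime → Real.log p ≤ δ / 2 * Real.log N' → ¬ p ∣ m * t + b + e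
        · obtain ⟨e, he, h3⟩ := hbad
          exact Or.inr ⟨e, he, mem_filter.2 ⟨ht, h3⟩⟩
        · push Not at hbad
          refine Or.inl ?_
          rw [hG]
          refine mem_filter.2 ⟨ht, fun e he h3 => ?_⟩
          obtain ⟨p, hp, hp1, hp2⟩ := hbad e he
          exact h3 p hp hp1 hp2
      have h3 := (card_le_card h2).trans ((card_union_le _ _).trans (Nat.add_le_add_left card_biUnion_le _))
      have h4 : ((Re H δ s E N').card : ℝ) ≤ G.card + ∑ e ∈ Eb, (((Re H δ s E N').filter (fun t =>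
          ∀ p : ℕ, p.Prime → Real.log p ≤ δ / 2 * Real.log N' → ¬ p ∣ m * t + b + e)).card : ℝ) := by
        exact_mod_cast h3
      refine h4.trans (add_le_add_right (sum_le_sum fun e he => ?_) _)
      apply hubN s (mem_range.2 (by omega)) e he hcsh
      · intro t ht
        rw [mem_Icc]
        exact (hRe t (mem_filter.1 ht).1).1
      · intro t ht
        exact ⟨(hRe t (mem_filter.1 ht).1).2.2.1, (mem_filter.1 ht).2⟩
    rw [← sum_mul] at h1
    have h5 : (∑ e ∈ Eb, Cs s e) * (N' / Real.log N' ^ (T * K + 2)) ≤ κ / 2 * (N' / Real.log N' ^ (T * K + 1)) := by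
      have h6 : (∑ e ∈ Eb, Cs s e) ≤ κ / 2 * Real.log N' := by
        refine (hCCs s hs).trans ?_
        have h7 : 2 * CC / κ ≤ Real.log N' := by linarith
        rw [div_le_iff₀ hκ] at h7
        linarith
      calc (∑ e ∈ Eb, Cs s e) * (N' / Real.log N' ^ (T * K + 2)) ≤
            κ / 2 * Real.log N' * (N' / Real.log N' ^ (T * K + 2)) :=
            mul_le_mul_of_nonneg_right h6 (by positivity)
        _ = κ / 2 * (N' / Real.log N' ^ (T * K + 1)) := by
            rw [show T * K + 2 = (T * K + 1) + 1 from rfl, pow_succ (Real.log (N' : ℝ)) (T * K + 1)]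
            field_simp
    have h8 : κ * (N' / Real.log N' ^ (T * K + 1)) = κ / 2 * (N' / Real.log N' ^ (T * K + 1)) +
        κ / 2 * (N' / Real.log N' ^ (T * K + 1)) := by ring
    linarith
  -- points of the good set
  have hgood : ∀ t ∈ G, (N' : ℝ) / 16 ≤ t ∧ t ≤ N' ∧ 1 ≤ t ∧ m * t + b ≤ N ∧ m * t + b ≡ b [MOD m] ∧
      Block h E ⌈2 / (δ / 2)⌉₊ ((N : ℝ) ^ (δ / 2)) (m * t + b) := by
    intro t ht
    rw [hG] at ht
    obtain ⟨ht1, ht2⟩ := mem_filter.1 ht
    obtain ⟨h4, h5, ⟨-, h7⟩, h8⟩ := hRe t ht1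
    have h9 : m * t + b ≤ N := (Nat.add_le_add_right (Nat.mul_le_mul_left m h4.2) b).trans hmN'
    refine ⟨h5, h4.2, h4.1, h9, ?_, fun g i => ?_, ?_⟩
    · show (m * t + b) % m = b % m
      rw [Nat.mul_add_mod]
    · have hv := hval g i t
      have hpr : ∀ p : ℕ, p.Prime → p ∣ m * t + b + h g i → (N : ℝ) ^ (δ / 2) < p := by
        intro p hp hpd
        have h10 := h7 g i p hp
        rw [hv, Int.natCast_dvd_natCast] at h10
        have h11 : ¬ Real.log p ≤ δ * Real.log N' := fun h => h10 h hpd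
        rw [not_le] at h11
        have hp0 : (0 : ℝ) < p := by exact_mod_cast hp.pos
        rw [Real.rpow_def_of_pos hN0, ← Real.lt_log_iff_exp_lt hp0]
        have : δ / 2 * Real.log N ≤ δ * Real.log N' := by nlinarith
        linarith
      refine ⟨⟨?_, hpr⟩, h8 g i⟩
      apply len_le (by positivity) hN2 _ _ hpr
      · have : 0 < m * t := Nat.mul_pos hm h4.1
        omega
      · have h16 : m * t + b + h g i ≤ N * N := by
          have h17 : h g i ≤ N := (hB g i).trans (by omega)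
          have h18 : N * 2 ≤ N * N := Nat.mul_le_mul_left _ hN2
          omega
        rw [pow_two]
        exact_mod_cast h16
    · intro e he1 he2 he3
      by_contra hcon
      push Not at hcon
      have heb : e ∈ Eb := by
        rw [hEb]
        obtain ⟨g, i, hgi⟩ := he2
        refine mem_filter.2 ⟨mem_range.2 ?_, he1, hcon⟩
        have := hB g i
        omega
      apply ht2 e heb
      intro p hp hlp hd
      have h10 := he3 p hp hd
      have hp0 : (0 : ℝ) < p := by exact_mod_cast hp.pos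
      rw [Real.rpow_def_of_pos hN0, ← Real.lt_log_iff_exp_lt hp0] at h10
      have : δ / 2 * Real.log N' ≤ δ / 2 * Real.log N := mul_le_mul_of_nonneg_left hlogle (by positivity)
      linarith
  obtain ⟨d, hd1, hd2, hd3⟩ := hCN s hs hcsh G (by
    intro t ht
    obtain ⟨h4, h5, h6, -⟩ := hgood t ht
    rw [hG] at ht
    exact ⟨h6, h5, h4, (hRe t (mem_filter.1 ht).1).2.2.1⟩) hGcard
  have hminj : Function.Injective (fun t : ℕ => m * t + b) := by
    intro t t' htt
    have : m * t = m * t' := by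
      simp only at htt
      omega
    exact Nat.eq_of_mul_eq_mul_left hm this
  have hpow : ∀ e : ℕ, Real.log N' ^ e ≤ Real.log N ^ e := fun e => pow_le_pow_left₀ hlogp.le hlogle e
  refine ⟨E, m * d, hE, Nat.mul_pos hm hd1, ?_, ?_, ?_⟩
  · push_cast
    calc (m : ℝ) * d ≤ Real.log N * Real.log N ^ C := by
          apply mul_le_mul (by linarith) (hd2.trans (hpow C)) (Nat.cast_nonneg _) (by linarith)
      _ = _ := by ring
  · refine ⟨G.image (fun t => m * t + b), ?_, ?_, ?_⟩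
    · intro n hn
      obtain ⟨t, ht, rfl⟩ := mem_image.1 hn
      obtain ⟨-, -, h6, h7, -⟩ := hgood t ht
      have : 0 < m * t := Nat.mul_pos hm h6
      rw [mem_Icc]
      exact ⟨by omega, h7⟩
    · intro n hn
      obtain ⟨t, ht, rfl⟩ := mem_image.1 hn
      obtain ⟨-, -, -, -, h8, h9⟩ := hgood t ht
      exact ⟨h8, h9⟩
    · rw [card_image_of_injective _ hminj]
      refine le_trans ?_ hGcard
      calc κ / 2 / (2 * m) * (N / Real.log N ^ (T * K + 1)) =
            κ / 2 * ((N / (2 * m)) / Real.log N ^ (T * K + 1)) := by ring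
        _ ≤ κ / 2 * (N' / Real.log N' ^ (T * K + 1)) := by
          apply mul_le_mul_of_nonneg_left _ (by positivity)
          apply div_le_div₀ hN'r.le _ (by positivity) (hpow _)
          rw [div_le_iff₀ (by positivity)]
          linarith
  · refine ⟨((Icc 1 N').filter (fun u : ℕ => ∀ j < max L 2, u + j * d ∈ G)).image (fun t => m * t + b), ?_, ?_, ?_⟩
    · intro n hn
      obtain ⟨t, ht, rfl⟩ := mem_image.1 hn
      obtain ⟨h5, h6⟩ := mem_filter.1 ht
      rw [mem_Icc] at h5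
      have : 0 < m * t := Nat.mul_pos hm h5.1
      have h7 : m * t ≤ m * N' := Nat.mul_le_mul_left m h5.2
      rw [mem_Icc]
      exact ⟨by omega, by omega⟩
    · intro n hn l hl
      obtain ⟨t, ht, rfl⟩ := mem_image.1 hn
      obtain ⟨h5, h6⟩ := mem_filter.1 ht
      obtain ⟨-, -, -, h7, h8, h9⟩ := hgood _ (h6 l (lt_of_lt_of_le hl (le_max_left _ _)))
      have e : m * t + b + l * (m * d) = m * (t + l * d) + b := by ring
      rw [e]
      exact ⟨h7, h8, h9⟩
    · rw [card_image_of_injective _ hminj]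
      refine le_trans ?_ hd3
      have h10 : (N : ℝ) / (2 * m) ≤ N' := by
        rw [div_le_iff₀ (by positivity)]
        linarith
      calc (N : ℝ) / Real.log N ^ (C + 1) = (N / Real.log N) / Real.log N ^ C := by
            rw [pow_succ, div_div, mul_comm]
        _ ≤ (N / (2 * m)) / Real.log N ^ C := by
            apply div_le_div_of_nonneg_right _ (by positivity)
            apply div_le_div_of_nonneg_left hN0.le (by positivity)
            linarith
        _ ≤ N' / Real.log N' ^ C := div_le_div₀ hN'r.le h10 (by positivity) (hpow _)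

end Pool.Agent.W5h28.CP
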